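import Pool.Agent.Work.MP_6f78fb_rk_helper32.SPAN

/-!
# MP_6f78fb, block INJ2 (helper32)
-/

set_option autoImplicit false

open scoped BigOperators TensorProduct
open Classical

noncomputable section

namespace Pool.RookLC.helper32

open Finset Function
open Pool.RookLC

variable {n m : ℕ}

/-! ### placing rooks -/

/-- replace the objects in the rows of `S` by rooks in the columns `p` -/
def Pl (α : Cf n m) (S : Finset (Fin n)) (p : {a // a ∈ S} → Fin m) : Cf n m :=
  fun a => if h : a ∈ S then some (some (p ⟨a, h⟩)) else α a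

/-- the same for two sets of rows -/
def Kl (α : Cf n m) (S T : Finset (Fin n)) (p : {a // a ∈ S} → Fin m) (q : {a // a ∈ T} → Fin m) :
    Cf n m :=
  fun a => if h : a ∈ S then some (some (p ⟨a, h⟩)) else
    if h' : a ∈ T then some (some (q ⟨a, h'⟩)) else α a

theorem Pl_mem {α : Cf n m} {S : Finset (Fin n)} {p : {a // a ∈ S} → Fin m} {a : Fin n}
    (h : a ∈ S) : Pl α S p a = some (some (p ⟨a, h⟩)) := by
  rw [Pl, dif_pos h]

theorem Pl_not {α : Cf n m} {S : Finset (Fin n)} {p : {a // a ∈ S} → Fin m} {a : Fin n}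
    (h : a ∉ S) : Pl α S p a = α a := by
  rw [Pl, dif_neg h]

theorem Kl_mem {α : Cf n m} {S T : Finset (Fin n)} {p : {a // a ∈ S} → Fin m}
    {q : {a // a ∈ T} → Fin m} {a : Fin n}
    (h : a ∈ S) : Kl α S T p q a = some (some (p ⟨a, h⟩)) := by
  rw [Kl, dif_pos h]

theorem Kl_mem' {α : Cf n m} {S T : Finset (Fin n)} {p : {a // a ∈ S} → Fin m}
    {q : {a // a ∈ T} → Fin m} {a : Fin n}
    (h : a ∉ S) (h' : a ∈ T) : Kl α S T p q a = some (some (q ⟨a, h'⟩)) := by
  rw [Kl, dif_neg h, dif_pos h']

theorem Kl_not {α : Cf n m} {S T : Finset (Fin n)} {p : {a // a ∈ S} → Fin m}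
    {q : {a // a ∈ T} → Fin m} {a : Fin n}
    (h : a ∉ S) (h' : a ∉ T) : Kl α S T p q a = α a := by
  rw [Kl, dif_neg h, dif_neg h']

theorem mem_free {α β : Cf n m} {a : Fin n} :
    a ∈ free α β ↔ ∃ x, α a = some (some x) ∧ x ∉ cols β := by
  simp [free]

/-- a rook in a row which is not free is in a shared column -/
theorem shared {α β : Cf n m} {a : Fin n} {j : Fin m} (h : a ∉ free α β)
    (hj : α a = some (some j)) : j ∈ cols α ∩ cols β := by
  rw [Finset.mem_inter]
  refine ⟨cols_iff.2 ⟨a, hj⟩, ?_⟩
  by_contra h1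
  exact h (mem_free.2 ⟨j, hj, h1⟩)

theorem Pl_cols {α β : Cf n m} (p : {a // a ∈ free α β} → Fin m) {j : Fin m} :
    j ∈ cols (Pl α (free α β) p) ↔ j ∈ cols α ∩ cols β ∨ ∃ a, p a = j := by
  rw [cols_iff]
  constructor
  · rintro ⟨a, ha⟩
    by_cases h : a ∈ free α β
    · rw [Pl_mem h] at ha
      simp only [Option.some.injEq] at ha
      exact Or.inr ⟨_, ha⟩
    · rw [Pl_not h] at ha
      exact Or.inl (shared h ha)
  · rintro (h | ⟨a, ha⟩)
    · rw [Finset.mem_inter] at h
      obtain ⟨a, ha⟩ := cols_iff.1 h.1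
      refine ⟨a, ?_⟩
      rw [Pl_not, ha]
      intro h1
      obtain ⟨x, hx, hx'⟩ := mem_free.1 h1
      rw [ha] at hx
      simp only [Option.some.injEq] at hx
      subst hx
      exact hx' h.2
    · exact ⟨a.1, by rw [Pl_mem a.2, ha]⟩

theorem Kl_cols {α β : Cf n m} (p : {a // a ∈ free α β} → Fin m) (q : {a // a ∈ marks α} → Fin m)
    {j : Fin m} :
    j ∈ cols (Kl α (free α β) (marks α) p q) ↔
      j ∈ cols α ∩ cols β ∨ (∃ a, p a = j) ∨ ∃ a, q a = j := by
  rw [cols_iff]
  constructor
  · rintro ⟨a, ha⟩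
    by_cases h : a ∈ free α β
    · rw [Kl_mem h] at ha
      simp only [Option.some.injEq] at ha
      exact Or.inr (Or.inl ⟨_, ha⟩)
    · by_cases h' : a ∈ marks α
      · rw [Kl_mem' h h'] at ha
        simp only [Option.some.injEq] at ha
        exact Or.inr (Or.inr ⟨_, ha⟩)
      · rw [Kl_not h h'] at ha
        exact Or.inl (shared h ha)
  · rintro (h | ⟨a, ha⟩ | ⟨a, ha⟩)
    · rw [Finset.mem_inter] at h
      obtain ⟨a, ha⟩ := cols_iff.1 h.1
      refine ⟨a, ?_⟩
      rw [Kl_not, ha]
      · intro h1
        obtain ⟨x, hx, hx'⟩ := mem_free.1 h1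
        rw [ha] at hx
        simp only [Option.some.injEq] at hx
        subst hx
        exact hx' h.2
      · rw [mem_marks, ha]
        simp
    · exact ⟨a.1, by rw [Kl_mem a.2, ha]⟩
    · refine ⟨a.1, ?_⟩
      rw [Kl_mem' _ a.2, ha]
      intro h1
      obtain ⟨x, hx, -⟩ := mem_free.1 h1
      rw [mem_marks.1 a.2] at hx
      simp at hx

theorem Kl_valid {α β : Cf n m} {p : {a // a ∈ free α β} → Fin m} {q : {a // a ∈ marks α} → Fin m}
    (hv : Valid α) (hp : Injective p) (hq : Injective q) (hpq : ∀ a b, p a ≠ q b)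
    (hpC : ∀ a, p a ∉ cols α ∩ cols β) (hqC : ∀ a, q a ∉ cols α ∩ cols β) :
    Valid (Kl α (free α β) (marks α) p q) := by
  intro a b j ha hb
  by_cases h1 : a ∈ free α β
  · rw [Kl_mem h1] at ha
    simp only [Option.some.injEq] at ha
    by_cases h2 : b ∈ free α β
    · rw [Kl_mem h2] at hb
      simp only [Option.some.injEq] at hb
      have := hp (ha.trans hb.symm)
      simpa using this
    · by_cases h3 : b ∈ marks α
      · rw [Kl_mem' h2 h3] at hb
        simp only [Option.some.injEq] at hb
        exact absurd (ha.trans hb.symm) (hpq _ _)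
      · rw [Kl_not h2 h3] at hb
        have := shared h2 hb
        rw [← ha] at this
        exact absurd this (hpC _)
  · by_cases h1' : a ∈ marks α
    · rw [Kl_mem' h1 h1'] at ha
      simp only [Option.some.injEq] at ha
      by_cases h2 : b ∈ free α β
      · rw [Kl_mem h2] at hb
        simp only [Option.some.injEq] at hb
        exact absurd (hb.trans ha.symm) (hpq _ _)
      · by_cases h3 : b ∈ marks α
        · rw [Kl_mem' h2 h3] at hb
          simp only [Option.some.injEq] at hb
          have := hq (ha.trans hb.symm)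
          simpa using this
        · rw [Kl_not h2 h3] at hb
          have := shared h2 hb
          rw [← ha] at this
          exact absurd this (hqC _)
    · rw [Kl_not h1 h1'] at ha
      have hC := shared h1 ha
      by_cases h2 : b ∈ free α β
      · rw [Kl_mem h2] at hb
        simp only [Option.some.injEq] at hb
        rw [← hb] at hC
        exact absurd hC (hpC _)
      · by_cases h3 : b ∈ marks α
        · rw [Kl_mem' h2 h3] at hb
          simp only [Option.some.injEq] at hb
          rw [← hb] at hC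
          exact absurd hC (hqC _)
        · rw [Kl_not h2 h3] at hb
          exact hv a b j ha hb

theorem Kl_tt {α β : Cf n m} {p : {a // a ∈ free α β} → Fin m} {q : {a // a ∈ marks α} → Fin m} :
    tt (Kl α (free α β) (marks α) p q) = 0 := by
  rw [tt_eq, Finset.card_eq_zero, Finset.eq_empty_iff_forall_notMem]
  intro a ha
  rw [mem_marks] at ha
  by_cases h : a ∈ free α β
  · rw [Kl_mem h] at ha
    simp at ha
  · by_cases h' : a ∈ marks α
    · rw [Kl_mem' h h'] at ha
      simp at ha
    · rw [Kl_not h h'] at ha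
      exact h' (mem_marks.2 ha)

theorem Kl_free {α β B' : Cf n m} {p : {a // a ∈ free α β} → Fin m}
    {q : {a // a ∈ marks α} → Fin m} (hC : cols α ∩ cols β ⊆ cols B')
    (hp : ∀ a, p a ∉ cols B') (hq : ∀ a, q a ∉ cols B') :
    free (Kl α (free α β) (marks α) p q) B' = free α β ∪ marks α := by
  ext a
  rw [mem_free, Finset.mem_union]
  constructor
  · rintro ⟨x, hx, hx'⟩
    by_contra hcon
    push Not at hcon
    rw [Kl_not hcon.1 hcon.2] at hx
    exact hx' (hC (shared hcon.1 hx))
  · rintro (h | h)
    · exact ⟨_, Kl_mem h, hp _⟩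
    · by_cases h' : a ∈ free α β
      · exact ⟨_, Kl_mem h', hp _⟩
      · exact ⟨_, Kl_mem' h' h, hq _⟩

theorem Kl_mk {α β : Cf n m} {p : {a // a ∈ free α β} → Fin m} {q : {a // a ∈ marks α} → Fin m} :
    mk (Kl α (free α β) (marks α) p q) (marks α) = Pl α (free α β) p := by
  funext a
  unfold mk
  by_cases h : a ∈ marks α
  · rw [if_pos h, Pl_not, mem_marks.1 h]
    intro h1
    obtain ⟨x, hx, -⟩ := mem_free.1 h1
    rw [mem_marks.1 h] at hx
    simp at hx
  · rw [if_neg h]
    by_cases h' : a ∈ free α β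
    · rw [Kl_mem h', Pl_mem h']
    · rw [Kl_not h' h, Pl_not h']

theorem Kl_rr {α β : Cf n m} {p : {a // a ∈ free α β} → Fin m} {q : {a // a ∈ marks α} → Fin m}
    {T : Finset (Fin n)} (hT : T ⊆ marks α) :
    rr (mk (Kl α (free α β) (marks α) p q) T) = rr α + (marks α \ T).card := by
  have h1 : reals (mk (Kl α (free α β) (marks α) p q) T) = reals α ∪ (marks α \ T) := by
    ext a
    rw [mem_reals, Finset.mem_union, Finset.mem_sdiff, mem_reals]
    unfold mk
    by_cases hT' : a ∈ T
    · have := mem_marks.1 (hT hT')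
      simp [hT', this]
    · rw [if_neg hT']
      by_cases h : a ∈ free α β
      · rw [Kl_mem h]
        obtain ⟨x, hx, -⟩ := mem_free.1 h
        simp [hx]
      · by_cases h' : a ∈ marks α
        · rw [Kl_mem' h h']
          simp [h', hT']
        · rw [Kl_not h h']
          simp [h']
  rw [rr, h1, Finset.card_union_of_disjoint]
  · rfl
  · rw [Finset.disjoint_left]
    intro a ha ha'
    obtain ⟨j, hj⟩ := mem_reals.1 ha
    rw [Finset.mem_sdiff, mem_marks, hj] at ha'
    simp at ha'

theorem Pl_upd {α : Cf n m} {S : Finset (Fin n)} (p : {a // a ∈ S} → Fin m) (a : {a // a ∈ S})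
    (y : Fin m) : Pl α S (update p a y) = update (Pl α S p) a.1 (some (some y)) := by
  funext b
  by_cases hb : b = a.1
  · subst hb
    rw [Pl_mem a.2, update_self]
    simp
  · rw [update_of_ne hb]
    by_cases h : b ∈ S
    · rw [Pl_mem h, Pl_mem h, update_of_ne]
      intro h1
      apply hb
      rw [← h1]
    · rw [Pl_not h, Pl_not h]

/-- counting -/
theorem count {α β : Cf n m} :
    (cols α ∩ cols β).card + (free α β).card + (marks α).card ≤ dd α := by
  set S := univ.filter fun a : Fin n => ∃ j ∈ cols α ∩ cols β, α a = some (some j) with hS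
  have h1 : (cols α ∩ cols β).card ≤ S.card := by
    have e1 : ((cols α ∩ cols β).image fun j => (some (some j) : St m)).card
        = (cols α ∩ cols β).card := by
      apply Finset.card_image_of_injective
      intro a b h
      simpa using h
    rw [← e1]
    refine le_trans (Finset.card_le_card ?_) (Finset.card_image_le (s := S) (f := α))
    intro s hs
    rw [Finset.mem_image] at hs
    obtain ⟨j, hj, rfl⟩ := hs
    obtain ⟨a, ha⟩ := cols_iff.1 (Finset.mem_inter.1 hj).1
    rw [Finset.mem_image]
    refine ⟨a, ?_, ha⟩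
    rw [hS, Finset.mem_filter]
    exact ⟨Finset.mem_univ _, j, hj, ha⟩
  have h2 : Disjoint S (free α β) := by
    rw [Finset.disjoint_left]
    intro a ha ha'
    rw [hS, Finset.mem_filter] at ha
    obtain ⟨-, j, hj, hja⟩ := ha
    obtain ⟨x, hx, hx'⟩ := mem_free.1 ha'
    rw [hja] at hx
    simp only [Option.some.injEq] at hx
    subst hx
    exact hx' (Finset.mem_inter.1 hj).2
  have h3 : Disjoint (S ∪ free α β) (marks α) := by
    rw [Finset.disjoint_left]
    intro a ha ha'
    rw [Finset.mem_union, hS, Finset.mem_filter, mem_free] at ha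
    rw [mem_marks] at ha'
    rcases ha with ⟨-, j, hj, hja⟩ | ⟨x, hx, -⟩
    · rw [ha'] at hja
      simp at hja
    · rw [ha'] at hx
      simp at hx
  have h4 : (S ∪ free α β) ∪ marks α ⊆ supp α := by
    intro a ha
    rw [Finset.mem_union, Finset.mem_union, hS, Finset.mem_filter, mem_free, mem_marks] at ha
    rw [mem_supp]
    rcases ha with (⟨-, j, hj, hja⟩ | ⟨x, hx, -⟩) | h
    · rw [hja]
      simp
    · rw [hx]
      simp
    · rw [h]
      simp
  have h5 := Finset.card_le_card h4
  rw [Finset.card_union_of_disjoint h3, Finset.card_union_of_disjoint h2] at h5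
  rw [dd_eq]
  omega

/-! ### abstract lemmas -/

/-- a function of the subsets which does not depend on `u` -/
theorem toggle {U : Type} [Fintype U] [DecidableEq U] (u : U) (f : Finset U → ℂ)
    (h : ∀ ε ε' : Finset U, (∀ v, v ≠ u → (v ∈ ε ↔ v ∈ ε')) → f ε = f ε') :
    ∑ ε : Finset U, (-1 : ℂ) ^ ε.card * f ε = 0 := by
  refine Finset.sum_involution (s := (univ : Finset (Finset U)))
    (fun ε _ => if u ∈ ε then ε.erase u else insert u ε) ?_ ?_ ?_ ?_
  · intro ε _
    by_cases hu : u ∈ ε
    · simp only [hu, if_true]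
      have h1 : f ε = f (ε.erase u) := by
        apply h
        intro v hv
        simp [hv]
      have h2 : (ε.erase u).card + 1 = ε.card := Finset.card_erase_add_one hu
      rw [← h2, pow_succ, h1]
      ring
    · simp only [hu, if_false]
      have h1 : f ε = f (insert u ε) := by
        apply h
        intro v hv
        simp [hv]
      rw [Finset.card_insert_of_notMem hu, pow_succ, h1]
      ring
  · intro ε _ _
    by_cases hu : u ∈ ε
    · simp only [hu, if_true]
      intro h1
      rw [← h1] at hu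
      simp at hu
    · simp only [hu, if_false]
      intro h1
      rw [← h1] at hu
      simp at hu
  · intro ε _
    exact Finset.mem_univ _
  · intro ε _
    by_cases hu : u ∈ ε
    · simp [hu]
    · simp [hu]

/-- the harmonic relation -/
theorem harm_core {U : Type} [Fintype U] [DecidableEq U] {C : Finset (Fin m)} (x : U → {j : Fin m // j ∉ C}) (a : U)
    (F : Fin m → ℂ) (D : Finset (Fin m)) (hCD : C ⊆ D) (h0 : ∑ y ∈ Dᶜ, F y = 0)
    (h1 : ∀ y : {j : Fin m // j ∉ C}, Injective (update x a y) → y.1 ∉ D)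
    (h2 : ∀ y : {j : Fin m // j ∉ C}, ∀ u, u ≠ a → x u = y → y.1 ∉ D → F y.1 = 0) :
    ∑ y : {j : Fin m // j ∉ C}, (if Injective (update x a y) then F y.1 else 0) = 0 := by
  by_cases hinj : ∀ u v, u ≠ a → v ≠ a → x u = x v → u = v
  · have e1 : ∀ y : {j : Fin m // j ∉ C}, (if Injective (update x a y) then F y.1 else 0)
        = if y.1 ∈ Dᶜ then F y.1 else 0 := by
      intro y
      by_cases hy : Injective (update x a y)
      · rw [if_pos hy, if_pos]
        rw [Finset.mem_compl]
        exact h1 y hy
      · rw [if_neg hy]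
        by_cases hD : y.1 ∈ Dᶜ
        · rw [if_pos hD]
          have : ∃ u, u ≠ a ∧ x u = y := by
            by_contra hcon
            push Not at hcon
            apply hy
            intro u v huv
            by_cases hu : u = a
            · by_cases hv : v = a
              · rw [hu, hv]
              · exfalso
                rw [hu, update_self, update_of_ne hv] at huv
                exact hcon v hv huv.symm
            · by_cases hv : v = a
              · exfalso
                rw [hv, update_self, update_of_ne hu] at huv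
                exact hcon u hu huv
              · rw [update_of_ne hu, update_of_ne hv] at huv
                exact hinj u v hu hv huv
          obtain ⟨u, hu, hxu⟩ := this
          exact (h2 y u hu hxu (Finset.mem_compl.1 hD)).symm
        · rw [if_neg hD]
    rw [Finset.sum_congr rfl fun y _ => e1 y]
    have e2 : ∑ y : {j : Fin m // j ∉ C}, (if y.1 ∈ Dᶜ then F y.1 else 0)
        = ∑ y ∈ univ.filter (fun j : Fin m => j ∉ C), if y ∈ Dᶜ then F y else 0 :=
      (Finset.sum_subtype (univ.filter fun j : Fin m => j ∉ C) (by simp)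
        (fun y => if y ∈ Dᶜ then F y else 0)).symm
    rw [e2, ← Finset.sum_filter, ← h0]
    apply Finset.sum_congr _ (fun _ _ => rfl)
    ext y
    simp only [Finset.mem_filter, Finset.mem_univ, true_and, Finset.mem_compl]
    constructor
    · exact fun h => h.2
    · exact fun h => ⟨fun h3 => h (hCD h3), h⟩
  · apply Finset.sum_eq_zero
    intro y _
    rw [if_neg]
    intro hy
    apply hinj
    intro u v hu hv huv
    apply hy
    rw [update_of_ne hu, update_of_ne hv, huv]

theorem Lop2_apply (g : Fn2 n m) (ω : Pr n m) : Lop2 n m g ω =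
    if Valid2 ω ∧ tt ω.1 = 0 ∧ tt ω.2 = 0 then
    ∑ T ∈ (free ω.1 ω.2).powerset, ∑ T' ∈ (free ω.2 ω.1).powerset, g (mk ω.1 T, mk ω.2 T')
    else 0 := rfl

/-- existence of the columns for the marks -/
theorem exists_z {X U V : Type} [Fintype X] [Fintype U] [Fintype V] (x y : U → X)
    (h : Injective (Sum.elim x y)) (hc : 2 * Fintype.card U + Fintype.card V ≤ Fintype.card X) :
    ∃ z : V → X, Injective z ∧ (∀ v u, z v ≠ x u) ∧ ∀ v u, z v ≠ y u := by
  have h1 : Fintype.card {p : X // p ∉ Set.range (Sum.elim x y)} + 2 * Fintype.card U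
      = Fintype.card X := by
    have h2 := Fintype.card_subtype_compl (fun p : X => p ∈ Set.range (Sum.elim x y))
    have h3 : Fintype.card {p : X // p ∈ Set.range (Sum.elim x y)} = 2 * Fintype.card U := by
      have := Fintype.card_congr (Equiv.ofInjective _ h)
      rw [Fintype.card_sum] at this
      rw [two_mul, this]
    have h4 : Fintype.card {p : X // p ∈ Set.range (Sum.elim x y)} ≤ Fintype.card X :=
      Fintype.card_subtype_le _
    omega
  have h2 : Fintype.card V ≤ Fintype.card {p : X // p ∉ Set.range (Sum.elim x y)} := by omega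
  obtain ⟨z⟩ := Function.Embedding.nonempty_of_card_le h2
  refine ⟨fun v => (z v).1, ?_, ?_, ?_⟩
  · intro v v' hv
    exact z.injective (Subtype.ext hv)
  · intro v u hv
    exact (z v).2 ⟨Sum.inl u, by rw [Sum.elim_inl]; exact hv.symm⟩
  · intro v u hv
    exact (z v).2 ⟨Sum.inr u, by rw [Sum.elim_inr]; exact hv.symm⟩

/-! ### the main argument -/

section

variable (α β : Cf n m)

/-- labels -/
abbrev UL : Type := {a // a ∈ free α β} ⊕ {a // a ∈ free β α}

/-- columns which are not shared -/
abbrev XL : Type := {j : Fin m // j ∉ cols α ∩ cols β}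

/-- labels of the marks -/
abbrev TL : Type := {a // a ∈ marks α} ⊕ {a // a ∈ marks β}

def pA (x : UL α β → XL α β) : {a // a ∈ free α β} → Fin m := fun a => (x (Sum.inl a)).1

def pB (x : UL α β → XL α β) : {a // a ∈ free β α} → Fin m := fun a => (x (Sum.inr a)).1

def qA (z : TL α β → XL α β) : {a // a ∈ marks α} → Fin m := fun a => (z (Sum.inl a)).1

def qB (z : TL α β → XL α β) : {a // a ∈ marks β} → Fin m := fun a => (z (Sum.inr a)).1

def AA (x : UL α β → XL α β) : Cf n m := Pl α (free α β) (pA α β x)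

def BB (x : UL α β → XL α β) : Cf n m := Pl β (free β α) (pB α β x)

def A2 (x : UL α β → XL α β) (z : TL α β → XL α β) : Cf n m :=
  Kl α (free α β) (marks α) (pA α β x) (qA α β z)

def B2 (x : UL α β → XL α β) (z : TL α β → XL α β) : Cf n m :=
  Kl β (free β α) (marks β) (pB α β x) (qB α β z)

variable {α β}

theorem cols_AA {x : UL α β → XL α β} {j : Fin m} : j ∈ cols (AA α β x) ↔
    j ∈ cols α ∩ cols β ∨ ∃ a, (x (Sum.inl a)).1 = j := by
  rw [AA, Pl_cols]
  rfl

theorem cols_BB {x : UL α β → XL α β} {j : Fin m} : j ∈ cols (BB α β x) ↔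
    j ∈ cols α ∩ cols β ∨ ∃ a, (x (Sum.inr a)).1 = j := by
  rw [BB, Pl_cols, Finset.inter_comm]
  rfl

theorem AA_upd {x : UL α β → XL α β} (a : {a // a ∈ free α β}) (y : XL α β) :
    AA α β (update x (Sum.inl a) y) = update (AA α β x) a.1 (some (some y.1)) := by
  rw [AA, AA, ← Pl_upd]
  congr 1
  funext b
  unfold pA
  by_cases h : b = a
  · subst h
    simp
  · rw [update_of_ne h, update_of_ne]
    intro h1
    exact h (Sum.inl.inj h1)

theorem AA_upd' {x : UL α β → XL α β} (a : {a // a ∈ free β α}) (y : XL α β) :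
    AA α β (update x (Sum.inr a) y) = AA α β x := by
  rw [AA, AA]
  congr 1

theorem BB_upd {x : UL α β → XL α β} (a : {a // a ∈ free β α}) (y : XL α β) :
    BB α β (update x (Sum.inr a) y) = update (BB α β x) a.1 (some (some y.1)) := by
  rw [BB, BB, ← Pl_upd]
  congr 1
  funext b
  unfold pB
  by_cases h : b = a
  · subst h
    simp
  · rw [update_of_ne h, update_of_ne]
    intro h1
    exact h (Sum.inr.inj h1)

theorem BB_upd' {x : UL α β → XL α β} (a : {a // a ∈ free α β}) (y : XL α β) :
    BB α β (update x (Sum.inl a) y) = BB α β x := by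
  rw [BB, BB]
  congr 1

/-- the function of the labels -/
def gl (g : Fn2 n m) (α β : Cf n m) (x : UL α β → XL α β) : ℂ :=
  if Injective x then g (AA α β x, BB α β x) else 0

theorem gl_harm {g : Fn2 n m} (hv : ∀ ω, g ω ≠ 0 → Valid2 ω) (hN : NPos g)
    (x : UL α β → XL α β) (a : UL α β) : ∑ y, gl g α β (update x a y) = 0 := by
  rcases a with a | a
  · have e1 : ∀ y, gl g α β (update x (Sum.inl a) y) =
        if Injective (update x (Sum.inl a) y) then
          (fun j : Fin m => g (update (AA α β x) a.1 (some (some j)), BB α β x)) y.1 else 0 := by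
      intro y
      unfold gl
      rw [AA_upd, BB_upd']
    rw [Finset.sum_congr rfl fun y _ => e1 y]
    apply harm_core x (Sum.inl a)
      (fun j : Fin m => g (update (AA α β x) a.1 (some (some j)), BB α β x)) (cols (BB α β x))
    · intro j hj
      exact cols_BB.2 (Or.inl hj)
    · exact hN.1 _ _ _
    · intro y hy hyD
      rcases cols_BB.1 hyD with h | ⟨b, hb⟩
      · exact y.2 h
      · have h1 : update x (Sum.inl a) y (Sum.inl a) = update x (Sum.inl a) y (Sum.inr b) := by
          rw [update_self, update_of_ne (by simp)]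
          exact Subtype.ext hb.symm
        have := hy h1
        simp at this
    · intro y u hu hxu hyD
      rcases u with u | u
      · by_contra h
        have h1 := (hv _ h).1
        have hne : u.1 ≠ a.1 := fun h2 => hu (by rw [Subtype.ext h2])
        apply hne
        apply h1 u.1 a.1 y.1
        · show update (AA α β x) a.1 (some (some y.1)) u.1 = _
          rw [update_of_ne hne, AA, Pl_mem u.2]
          simp only [pA, hxu]
        · show update (AA α β x) a.1 (some (some y.1)) a.1 = _
          rw [update_self]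
      · exact absurd (cols_BB.2 (Or.inr ⟨u, by rw [hxu]⟩)) hyD
  · have e1 : ∀ y, gl g α β (update x (Sum.inr a) y) =
        if Injective (update x (Sum.inr a) y) then
          (fun j : Fin m => g (AA α β x, update (BB α β x) a.1 (some (some j)))) y.1 else 0 := by
      intro y
      unfold gl
      rw [AA_upd', BB_upd]
    rw [Finset.sum_congr rfl fun y _ => e1 y]
    apply harm_core x (Sum.inr a)
      (fun j : Fin m => g (AA α β x, update (BB α β x) a.1 (some (some j)))) (cols (AA α β x))
    · intro j hj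
      exact cols_AA.2 (Or.inl hj)
    · exact hN.2 _ _ _
    · intro y hy hyD
      rcases cols_AA.1 hyD with h | ⟨b, hb⟩
      · exact y.2 h
      · have h1 : update x (Sum.inr a) y (Sum.inr a) = update x (Sum.inr a) y (Sum.inl b) := by
          rw [update_self, update_of_ne (by simp)]
          exact Subtype.ext hb.symm
        have := hy h1
        simp at this
    · intro y u hu hxu hyD
      rcases u with u | u
      · exact absurd (cols_AA.2 (Or.inr ⟨u, by rw [hxu]⟩)) hyD
      · by_contra h
        have h1 := (hv _ h).2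
        have hne : u.1 ≠ a.1 := fun h2 => hu (by rw [Subtype.ext h2])
        apply hne
        apply h1 u.1 a.1 y.1
        · show update (BB α β x) a.1 (some (some y.1)) u.1 = _
          rw [update_of_ne hne, BB, Pl_mem u.2]
          simp only [pB, hxu]
        · show update (BB α β x) a.1 (some (some y.1)) a.1 = _
          rw [update_self]

/-- the mixed labels -/
def mix {U X : Type} [DecidableEq U] (x y : U → X) (ε : Finset U) : U → X :=
  fun u => if u ∈ ε then y u else x u

theorem mix_congr {U X : Type} [DecidableEq U] {x y : U → X} {ε ε' : Finset U} {u : U}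
    (h : u ∈ ε ↔ u ∈ ε') : mix x y ε u = mix x y ε' u := by
  unfold mix
  by_cases h1 : u ∈ ε
  · rw [if_pos h1, if_pos (h.1 h1)]
  · rw [if_neg h1, if_neg fun h2 => h1 (h.2 h2)]

theorem mix_inj {U X : Type} [DecidableEq U] {x y : U → X} (h : Injective (Sum.elim x y)) (ε : Finset U) :
    Injective (mix x y ε) := by
  intro u v huv
  unfold mix at huv
  split_ifs at huv with h1 h2 h2
  · have := @h (Sum.inr u) (Sum.inr v) huv
    exact Sum.inr.inj this
  · have := @h (Sum.inr u) (Sum.inl v) huv
    simp at this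
  · have := @h (Sum.inl u) (Sum.inr v) huv
    simp at this
  · have := @h (Sum.inl u) (Sum.inl v) huv
    exact Sum.inl.inj this

/-- the configurations without marks -/
theorem unmarked {x : UL α β → XL α β} {z : TL α β → XL α β} (hα : Valid α) (hβ : Valid β)
    (hx : Injective x) (hz : Injective z) (hxz : ∀ v u, z v ≠ x u) :
    Valid2 (A2 α β x z, B2 α β x z) ∧ tt (A2 α β x z) = 0 ∧ tt (B2 α β x z) = 0 ∧
    free (A2 α β x z) (B2 α β x z) = free α β ∪ marks α ∧
    free (B2 α β x z) (A2 α β x z) = free β α ∪ marks β := by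
  have cA : ∀ j, j ∈ cols (A2 α β x z) ↔ j ∈ cols α ∩ cols β ∨
      (∃ a, (x (Sum.inl a)).1 = j) ∨ ∃ a, (z (Sum.inl a)).1 = j := by
    intro j
    rw [A2, Kl_cols]
    rfl
  have cB : ∀ j, j ∈ cols (B2 α β x z) ↔ j ∈ cols α ∩ cols β ∨
      (∃ a, (x (Sum.inr a)).1 = j) ∨ ∃ a, (z (Sum.inr a)).1 = j := by
    intro j
    rw [B2, Kl_cols, Finset.inter_comm]
    rfl
  refine ⟨⟨?_, ?_⟩, Kl_tt, Kl_tt, ?_, ?_⟩
  · apply Kl_valid hα
    · intro a b h
      exact Sum.inl.inj (hx (Subtype.ext h))
    · intro a b h
      exact Sum.inl.inj (hz (Subtype.ext h))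
    · intro a b h
      exact hxz _ _ (Subtype.ext h).symm
    · intro a
      exact (x (Sum.inl a)).2
    · intro a
      exact (z (Sum.inl a)).2
  · apply Kl_valid hβ
    · intro a b h
      exact Sum.inr.inj (hx (Subtype.ext h))
    · intro a b h
      exact Sum.inr.inj (hz (Subtype.ext h))
    · intro a b h
      exact hxz _ _ (Subtype.ext h).symm
    · intro a
      rw [Finset.inter_comm]
      exact (x (Sum.inr a)).2
    · intro a
      rw [Finset.inter_comm]
      exact (z (Sum.inr a)).2
  · apply Kl_free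
    · intro j hj
      exact (cB j).2 (Or.inl hj)
    · intro a h
      rcases (cB _).1 h with h | ⟨b, hb⟩ | ⟨b, hb⟩
      · exact (x (Sum.inl a)).2 h
      · have := hx (Subtype.ext hb)
        simp at this
      · exact hxz _ _ (Subtype.ext hb)
    · intro a h
      rcases (cB _).1 h with h | ⟨b, hb⟩ | ⟨b, hb⟩
      · exact (z (Sum.inl a)).2 h
      · exact hxz _ _ (Subtype.ext hb).symm
      · have := hz (Subtype.ext hb)
        simp at this
  · apply Kl_free
    · intro j hj
      rw [Finset.inter_comm] at hj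
      exact (cA j).2 (Or.inl hj)
    · intro a h
      rcases (cA _).1 h with h | ⟨b, hb⟩ | ⟨b, hb⟩
      · exact (x (Sum.inr a)).2 h
      · have := hx (Subtype.ext hb)
        simp at this
      · exact hxz _ _ (Subtype.ext hb)
    · intro a h
      rcases (cA _).1 h with h | ⟨b, hb⟩ | ⟨b, hb⟩
      · exact (z (Sum.inr a)).2 h
      · exact hxz _ _ (Subtype.ext hb).symm
      · have := hz (Subtype.ext hb)
        simp at this

/-- independence of a label whose row is marked -/
theorem indepA {x y : UL α β → XL α β} {z : TL α β → XL α β} {T : Finset (Fin n)}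
    (u : {a // a ∈ free α β}) (hu : u.1 ∈ T) {ε ε' : Finset (UL α β)}
    (h : ∀ v, v ≠ Sum.inl u → (v ∈ ε ↔ v ∈ ε')) :
    mk (A2 α β (mix x y ε) z) T = mk (A2 α β (mix x y ε') z) T ∧
      B2 α β (mix x y ε) z = B2 α β (mix x y ε') z := by
  constructor
  · funext a
    unfold mk
    by_cases ha : a ∈ T
    · rw [if_pos ha, if_pos ha]
    · rw [if_neg ha, if_neg ha, A2, A2]
      by_cases h1 : a ∈ free α β
      · rw [Kl_mem h1, Kl_mem h1]
        have h2 : (Sum.inl ⟨a, h1⟩ : UL α β) ≠ Sum.inl u := by
          intro h3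
          apply ha
          have := Sum.inl.inj h3
          rw [← this] at hu
          exact hu
        simp only [pA, mix_congr (h _ h2)]
      · by_cases h1' : a ∈ marks α
        · rw [Kl_mem' h1 h1', Kl_mem' h1 h1']
        · rw [Kl_not h1 h1', Kl_not h1 h1']
  · rw [B2, B2]
    congr 1
    funext a
    have h2 : (Sum.inr a : UL α β) ≠ Sum.inl u := by simp
    simp only [pB, mix_congr (h _ h2)]

theorem indepB {x y : UL α β → XL α β} {z : TL α β → XL α β} {T : Finset (Fin n)}
    (u : {a // a ∈ free β α}) (hu : u.1 ∈ T) {ε ε' : Finset (UL α β)}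
    (h : ∀ v, v ≠ Sum.inr u → (v ∈ ε ↔ v ∈ ε')) :
    mk (B2 α β (mix x y ε) z) T = mk (B2 α β (mix x y ε') z) T ∧
      A2 α β (mix x y ε) z = A2 α β (mix x y ε') z := by
  constructor
  · funext a
    unfold mk
    by_cases ha : a ∈ T
    · rw [if_pos ha, if_pos ha]
    · rw [if_neg ha, if_neg ha, B2, B2]
      by_cases h1 : a ∈ free β α
      · rw [Kl_mem h1, Kl_mem h1]
        have h2 : (Sum.inr ⟨a, h1⟩ : UL α β) ≠ Sum.inr u := by
          intro h3
          apply ha
          have := Sum.inr.inj h3
          rw [← this] at hu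
          exact hu
        simp only [pB, mix_congr (h _ h2)]
      · by_cases h1' : a ∈ marks β
        · rw [Kl_mem' h1 h1', Kl_mem' h1 h1']
        · rw [Kl_not h1 h1', Kl_not h1 h1']
  · rw [A2, A2]
    congr 1
    funext a
    have h2 : (Sum.inl a : UL α β) ≠ Sum.inr u := by simp
    simp only [pA, mix_congr (h _ h2)]

/-- the alternating cubes vanish -/
theorem gl_alt {g : Fn2 n m} (hα : Valid α) (hβ : Valid β)
    (hmax : ∀ ω, g ω ≠ 0 → rr ω.1 + rr ω.2 ≤ rr α + rr β) (hL : Lop2 n m g = 0)
    (x y : UL α β → XL α β) (h : Injective (Sum.elim x y)) (z : TL α β → XL α β)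
    (hz : Injective z) (hzx : ∀ v u, z v ≠ x u) (hzy : ∀ v u, z v ≠ y u) :
    ∑ ε : Finset (UL α β), (-1 : ℂ) ^ ε.card * gl g α β (mix x y ε) = 0 := by
  have hzm : ∀ ε v u, z v ≠ mix x y ε u := by
    intro ε v u
    unfold mix
    split_ifs
    · exact hzy v u
    · exact hzx v u
  have e1 : ∀ ε : Finset (UL α β), ∑ T ∈ (free α β ∪ marks α).powerset,
      ∑ T' ∈ (free β α ∪ marks β).powerset,
        g (mk (A2 α β (mix x y ε) z) T, mk (B2 α β (mix x y ε) z) T') = 0 := by
    intro ε
    obtain ⟨u1, u2, u3, u4, u5⟩ := unmarked hα hβ (mix_inj h ε) hz (hzm ε)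
    have h1 := congrFun hL (A2 α β (mix x y ε) z, B2 α β (mix x y ε) z)
    rw [Lop2_apply, if_pos ⟨u1, u2, u3⟩] at h1
    simp only at h1
    rw [u4, u5] at h1
    exact h1
  have e2 : ∑ T ∈ (free α β ∪ marks α).powerset, ∑ T' ∈ (free β α ∪ marks β).powerset,
      ∑ ε : Finset (UL α β), (-1 : ℂ) ^ ε.card *
        g (mk (A2 α β (mix x y ε) z) T, mk (B2 α β (mix x y ε) z) T') = 0 := by
    have e3 : ∑ ε : Finset (UL α β), (-1 : ℂ) ^ ε.card * (∑ T ∈ (free α β ∪ marks α).powerset,
      ∑ T' ∈ (free β α ∪ marks β).powerset,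
        g (mk (A2 α β (mix x y ε) z) T, mk (B2 α β (mix x y ε) z) T')) = 0 := by
      apply Finset.sum_eq_zero
      intro ε _
      rw [e1, mul_zero]
    rw [← e3]
    simp only [Finset.mul_sum]
    conv_rhs => rw [Finset.sum_comm]
    apply Finset.sum_congr rfl
    intro T _
    rw [Finset.sum_comm]
  have e4 : ∀ T ∈ (free α β ∪ marks α).powerset, ∀ T' ∈ (free β α ∪ marks β).powerset,
      (T ≠ marks α ∨ T' ≠ marks β) → ∑ ε : Finset (UL α β), (-1 : ℂ) ^ ε.card *
        g (mk (A2 α β (mix x y ε) z) T, mk (B2 α β (mix x y ε) z) T') = 0 := by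
    intro T hT T' hT' hne
    rw [Finset.mem_powerset] at hT hT'
    by_cases c1 : ∃ u ∈ free α β, u ∈ T
    · obtain ⟨u, hu, huT⟩ := c1
      apply toggle (Sum.inl ⟨u, hu⟩)
      intro ε ε' hε
      obtain ⟨i1, i2⟩ := indepA (x := x) (y := y) (z := z) (T := T) ⟨u, hu⟩ huT hε
      rw [i1, i2]
    by_cases c2 : ∃ u ∈ free β α, u ∈ T'
    · obtain ⟨u, hu, huT⟩ := c2
      apply toggle (Sum.inr ⟨u, hu⟩)
      intro ε ε' hε
      obtain ⟨i1, i2⟩ := indepB (x := x) (y := y) (z := z) (T := T') ⟨u, hu⟩ huT hε
      rw [i1, i2]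
    push Not at c1 c2
    have d1 : T ⊆ marks α := by
      intro a ha
      rcases Finset.mem_union.1 (hT ha) with h1 | h1
      · exact absurd ha (c1 a h1)
      · exact h1
    have d2 : T' ⊆ marks β := by
      intro a ha
      rcases Finset.mem_union.1 (hT' ha) with h1 | h1
      · exact absurd ha (c2 a h1)
      · exact h1
    apply Finset.sum_eq_zero
    intro ε _
    by_contra h5
    have h6 : g (mk (A2 α β (mix x y ε) z) T, mk (B2 α β (mix x y ε) z) T') ≠ 0 := by
      intro h7
      exact h5 (by rw [h7, mul_zero])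
    have h7 := hmax _ h6
    simp only [A2, B2] at h7
    rw [Kl_rr d1, Kl_rr d2] at h7
    have h8 : (marks α \ T).card = 0 := by omega
    have h9 : (marks β \ T').card = 0 := by omega
    rw [Finset.card_eq_zero, Finset.sdiff_eq_empty_iff_subset] at h8 h9
    rcases hne with hne | hne
    · exact hne (Finset.Subset.antisymm d1 h8)
    · exact hne (Finset.Subset.antisymm d2 h9)
  rw [Finset.sum_eq_single (marks α)] at e2
  · rw [Finset.sum_eq_single (marks β)] at e2
    · rw [← e2]
      apply Finset.sum_congr rfl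
      intro ε _
      rw [A2, B2, Kl_mk, Kl_mk, gl, if_pos (mix_inj h ε)]
      rfl
    · intro T' hT' hne
      exact e4 _ (Finset.mem_powerset.2 Finset.subset_union_right) T' hT' (Or.inr hne)
    · intro hcon
      exact absurd (Finset.mem_powerset.2 Finset.subset_union_right) hcon
  · intro T hT hne
    apply Finset.sum_eq_zero
    intro T' hT'
    exact e4 T hT T' hT' (Or.inl hne)
  · intro hcon
    exact absurd (Finset.mem_powerset.2 Finset.subset_union_right) hcon

end

theorem stmt_INJ2 (hA : Stmt_ALT) : Stmt_INJ2 := by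
  intro n m i him g hg hL
  obtain ⟨⟨hv, hN, -⟩, hS⟩ := hg
  by_contra hne
  have hex : ∃ ω : Pr n m, g ω ≠ 0 := by
    by_contra hcon
    push Not at hcon
    exact hne (funext hcon)
  obtain ⟨⟨α, β⟩, hω, hmax⟩ := Finset.exists_max_image
    (univ.filter fun ω : Pr n m => g ω ≠ 0) (fun ω => rr ω.1 + rr ω.2)
    (by
      obtain ⟨ω, hω⟩ := hex
      exact ⟨ω, Finset.mem_filter.2 ⟨Finset.mem_univ _, hω⟩⟩)
  rw [Finset.mem_filter] at hω
  have hg0 : g (α, β) ≠ 0 := hω.2
  obtain ⟨hα, hβ⟩ := hv _ hg0
  simp only at hα hβ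
  obtain ⟨hdα, hdβ⟩ := hS _ hg0
  simp only at hdα hdβ
  have c1 := count (α := α) (β := β)
  have c2 := count (α := β) (β := α)
  rw [Finset.inter_comm] at c2
  have hX : Fintype.card (XL α β) = m - (cols α ∩ cols β).card := by
    rw [Fintype.card_subtype_compl, Fintype.card_fin, Fintype.card_coe]
  have hU : Fintype.card (UL α β) = (free α β).card + (free β α).card := by
    rw [Fintype.card_sum, Fintype.card_coe, Fintype.card_coe]
  have hT : Fintype.card (TL α β) = (marks α).card + (marks β).card := by
    rw [Fintype.card_sum, Fintype.card_coe, Fintype.card_coe]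
  have hcard : 2 * Fintype.card (UL α β) + Fintype.card (TL α β) ≤ Fintype.card (XL α β) := by
    rw [hX, hU, hT]
    omega
  have hz := hA (UL α β) (XL α β) (gl g α β) (by
      intro x hx
      by_contra hcon
      exact hx (by rw [gl, if_neg hcon])) (gl_harm hv hN) (by omega) (by
      intro x y hxy
      obtain ⟨z, z1, z2, z3⟩ := exists_z (V := TL α β) x y hxy hcard
      exact gl_alt hα hβ (fun ω hω' => hmax ω (Finset.mem_filter.2 ⟨Finset.mem_univ _, hω'⟩)) hL
        x y hxy z z1 z2 z3)
  -- the original labels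
  have hfr : ∀ α β : Cf n m, ∀ a : {a // a ∈ free α β}, ∃ x : Fin m, α a.1 = some (some x) ∧
      x ∉ cols β := fun α β a => mem_free.1 a.2
  choose px hpx hpx' using hfr
  set x0 : UL α β → XL α β := Sum.elim
    (fun a => ⟨px α β a, fun h => hpx' α β a (Finset.mem_inter.1 h).2⟩)
    (fun a => ⟨px β α a, fun h => hpx' β α a (Finset.mem_inter.1 h).1⟩) with hx0
  have hi0 : Injective x0 := by
    rintro (a | a) (b | b) hab
    · have h1 : px α β a = px α β b := congrArg Subtype.val hab
      have := hα a.1 b.1 (px α β a) (hpx α β a) (by rw [h1]; exact hpx α β b)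
      rw [Subtype.ext this]
    · have h1 : px α β a = px β α b := congrArg Subtype.val hab
      exfalso
      apply hpx' β α b
      rw [← h1]
      exact cols_iff.2 ⟨a.1, hpx α β a⟩
    · have h1 : px β α a = px α β b := congrArg Subtype.val hab
      exfalso
      apply hpx' β α a
      rw [h1]
      exact cols_iff.2 ⟨b.1, hpx α β b⟩
    · have h1 : px β α a = px β α b := congrArg Subtype.val hab
      have := hβ a.1 b.1 (px β α a) (hpx β α a) (by rw [h1]; exact hpx β α b)
      rw [Subtype.ext this]
  have h0 := congrFun hz x0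
  rw [gl, if_pos hi0] at h0
  have hA0 : AA α β x0 = α := by
    funext a
    by_cases h : a ∈ free α β
    · rw [AA, Pl_mem h]
      exact (hpx α β ⟨a, h⟩).symm
    · rw [AA, Pl_not h]
  have hB0 : BB α β x0 = β := by
    funext a
    by_cases h : a ∈ free β α
    · rw [BB, Pl_mem h]
      exact (hpx β α ⟨a, h⟩).symm
    · rw [BB, Pl_not h]
  rw [hA0, hB0] at h0
  exact hg0 h0

end Pool.RookLC.helper32
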