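import Pool.Agent.Work.MP_6f78fb_rk.Interface

/-!
# MP_6f78fb, block SPAN (helper32)
-/

set_option autoImplicit false

open scoped BigOperators TensorProduct
open Classical

noncomputable section

namespace Pool.RookLC.helper32

open Finset Function
open Pool.RookLC

variable {n m : ℕ}

/-- rows with a rook -/
def reals (α : Cf n m) : Finset (Fin n) := univ.filter fun a => ∃ j, α a = some (some j)

/-- rows with a mark -/
def marks (α : Cf n m) : Finset (Fin n) := univ.filter fun a => α a = some none

theorem mem_reals {α : Cf n m} {a : Fin n} : a ∈ reals α ↔ ∃ j, α a = some (some j) := by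
  simp [reals]

theorem mem_marks {α : Cf n m} {a : Fin n} : a ∈ marks α ↔ α a = some none := by
  simp [marks]

theorem mem_supp {α : Cf n m} {a : Fin n} : a ∈ supp α ↔ α a ≠ none := by
  simp [supp]

theorem supp_upd (α : Cf n m) (a : Fin n) (s : Option (Fin m)) :
    supp (update α a (some s)) = insert a (supp α) := by
  ext b
  rw [mem_supp, Finset.mem_insert, mem_supp]
  by_cases h : b = a
  · subst h
    simp
  · rw [update_of_ne h]
    simp [h]

theorem reals_upd (α : Cf n m) (a : Fin n) (x : Fin m) :
    reals (update α a (some (some x))) = insert a (reals α) := by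
  ext b
  rw [mem_reals, Finset.mem_insert, mem_reals]
  by_cases h : b = a
  · subst h
    simp
  · rw [update_of_ne h]
    simp [h]

theorem reals_upd' (α : Cf n m) (a : Fin n) :
    reals (update α a (some none)) = (reals α).erase a := by
  ext b
  rw [mem_reals, Finset.mem_erase, mem_reals]
  by_cases h : b = a
  · subst h
    simp
  · rw [update_of_ne h]
    simp [h]

theorem marks_upd (α : Cf n m) (a : Fin n) (x : Fin m) :
    marks (update α a (some (some x))) = (marks α).erase a := by
  ext b
  rw [mem_marks, Finset.mem_erase, mem_marks]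
  by_cases h : b = a
  · subst h
    simp
  · rw [update_of_ne h]
    simp [h]

theorem marks_upd' (α : Cf n m) (a : Fin n) :
    marks (update α a (some none)) = insert a (marks α) := by
  ext b
  rw [mem_marks, Finset.mem_insert, mem_marks]
  by_cases h : b = a
  · subst h
    simp
  · rw [update_of_ne h]
    simp [h]

/-- number of real rows -/
def rr (α : Cf n m) : ℕ := (reals α).card

theorem dd_eq (α : Cf n m) : dd α = (supp α).card := rfl

theorem tt_eq (α : Cf n m) : tt α = (marks α).card := rfl

theorem valid_mark {α : Cf n m} {a : Fin n} {s : St m} (h : Valid (update α a s)) :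
    Valid (update α a (some none)) := by
  intro b c j hb hc
  by_cases hb' : b = a
  · subst hb'
    simp at hb
  by_cases hc' : c = a
  · subst hc'
    simp at hc
  rw [update_of_ne hb'] at hb
  rw [update_of_ne hc'] at hc
  apply h b c j
  · rw [update_of_ne hb', hb]
  · rw [update_of_ne hc', hc]

/-! ### the operators -/

/-- `(U χ)(α) = ∑ χ(α with a mark in the real row a, a)` -/
def UU (n m : ℕ) : (Cf n m × Fin n → ℂ) →ₗ[ℂ] (Cf n m → ℂ) where
  toFun χ := fun α => if Valid α then ∑ a ∈ reals α, χ (update α a (some none), a) else 0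
  map_add' := by
    intro f g
    funext α
    simp only [Pi.add_apply]
    split_ifs
    · rw [Finset.sum_add_distrib]
    · simp
  map_smul' := by
    intro c f
    funext α
    simp only [Pi.smul_apply, RingHom.id_apply, smul_eq_mul]
    split_ifs
    · rw [Finset.mul_sum]
    · simp

/-- the adjoint -/
def UA (n m : ℕ) : (Cf n m → ℂ) →ₗ[ℂ] (Cf n m × Fin n → ℂ) where
  toFun f := fun p => if p.1 p.2 = some none then
    ∑ x : Fin m, (if Valid (update p.1 p.2 (some (some x))) then f (update p.1 p.2 (some (some x)))
      else 0) else 0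
  map_add' := by
    intro f g
    funext α
    simp only [Pi.add_apply]
    split_ifs
    · rw [← Finset.sum_add_distrib]
      apply Finset.sum_congr rfl
      intro x _
      split_ifs <;> simp
    · simp
  map_smul' := by
    intro c f
    funext α
    simp only [Pi.smul_apply, RingHom.id_apply, smul_eq_mul]
    split_ifs
    · rw [Finset.mul_sum]
      apply Finset.sum_congr rfl
      intro x _
      split_ifs <;> simp
    · simp

theorem UU_apply (χ : Cf n m × Fin n → ℂ) (α : Cf n m) :
    UU n m χ α = if Valid α then ∑ a ∈ reals α, χ (update α a (some none), a) else 0 := rfl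

theorem UA_apply (f : Cf n m → ℂ) (p : Cf n m × Fin n) :
    UA n m f p = if p.1 p.2 = some none then
    ∑ x : Fin m, (if Valid (update p.1 p.2 (some (some x))) then f (update p.1 p.2 (some (some x)))
      else 0) else 0 := rfl

theorem adj (f : Cf n m → ℂ) (χ : Cf n m × Fin n → ℂ) :
    ∑ α, (starRingEnd ℂ) (f α) * UU n m χ α = ∑ p, (starRingEnd ℂ) (UA n m f p) * χ p := by
  have e1 : ∀ α : Cf n m, (starRingEnd ℂ) (f α) * UU n m χ α
      = ∑ a : Fin n, ∑ x : Fin m, if Valid α ∧ α a = some (some x) then
        (starRingEnd ℂ) (f α) * χ (update α a (some none), a) else 0 := by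
    intro α
    rw [UU_apply]
    by_cases hv : Valid α
    · rw [if_pos hv, Finset.mul_sum, reals, Finset.sum_filter]
      apply Finset.sum_congr rfl
      intro a _
      by_cases ha : ∃ j, α a = some (some j)
      · rw [if_pos ha]
        obtain ⟨j, hj⟩ := ha
        rw [Finset.sum_eq_single j]
        · rw [if_pos ⟨hv, hj⟩]
        · intro x _ hx
          rw [if_neg]
          rintro ⟨-, h⟩
          rw [hj] at h
          simp only [Option.some.injEq] at h
          exact hx h.symm
        · simp
      · rw [if_neg ha]
        symm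
        apply Finset.sum_eq_zero
        intro x _
        rw [if_neg]
        exact fun h => ha ⟨x, h.2⟩
    · rw [if_neg hv, mul_zero]
      symm
      apply Finset.sum_eq_zero
      intro a _
      apply Finset.sum_eq_zero
      intro x _
      rw [if_neg]
      exact fun h => hv h.1
  have e2 : ∀ p : Cf n m × Fin n, (starRingEnd ℂ) (UA n m f p) * χ p
      = ∑ x : Fin m, if Valid (update p.1 p.2 (some (some x))) ∧ p.1 p.2 = some none then
        (starRingEnd ℂ) (f (update p.1 p.2 (some (some x)))) * χ p else 0 := by
    intro p
    rw [UA_apply]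
    by_cases hp : p.1 p.2 = some none
    · rw [if_pos hp, map_sum, Finset.sum_mul]
      apply Finset.sum_congr rfl
      intro x _
      by_cases hv : Valid (update p.1 p.2 (some (some x)))
      · rw [if_pos hv, if_pos ⟨hv, hp⟩]
      · rw [if_neg hv, if_neg (fun h => hv h.1), map_zero, zero_mul]
    · rw [if_neg hp, map_zero, zero_mul]
      symm
      apply Finset.sum_eq_zero
      intro x _
      rw [if_neg]
      exact fun h => hp h.2
  rw [Finset.sum_congr rfl fun α _ => e1 α, Finset.sum_congr rfl fun p _ => e2 p,
    Fintype.sum_prod_type, Finset.sum_comm]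
  conv_rhs => rw [Finset.sum_comm]
  apply Finset.sum_congr rfl
  intro a _
  rw [Finset.sum_comm]
  conv_rhs => rw [Finset.sum_comm]
  apply Finset.sum_congr rfl
  intro x _
  rw [← Finset.sum_filter, ← Finset.sum_filter]
  refine Finset.sum_bij' (fun α _ => update α a (some none))
    (fun β _ => update β a (some (some x))) ?_ ?_ ?_ ?_ ?_
  · intro α hα
    simp only [Finset.mem_filter, Finset.mem_univ, true_and] at hα ⊢
    refine ⟨?_, by simp⟩
    rw [update_idem, ← hα.2, update_eq_self]
    exact hα.1
  · intro β hβ
    simp only [Finset.mem_filter, Finset.mem_univ, true_and] at hβ ⊢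
    exact ⟨hβ.1, by simp⟩
  · intro α hα
    simp only [Finset.mem_filter, Finset.mem_univ, true_and] at hα
    rw [update_idem, ← hα.2, update_eq_self]
  · intro β hβ
    simp only [Finset.mem_filter, Finset.mem_univ, true_and] at hβ
    rw [update_idem, ← hβ.2, update_eq_self]
  · intro α hα
    simp only [Finset.mem_filter, Finset.mem_univ, true_and] at hα
    rw [update_idem, ← hα.2, update_eq_self]

/-! ### the stable subspaces -/

/-- `k` real rows -/
def WW (n m d k : ℕ) (l : Bool) : Submodule ℂ (Cf n m → ℂ) where
  carrier := {f | (∀ α, f α ≠ 0 → Valid α ∧ dd α = d ∧ rr α = k) ∧ (l = true → LabH f)}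
  zero_mem' := ⟨fun α h => absurd rfl h, fun _ α s => by simp⟩
  add_mem' := by
    rintro f g ⟨hf1, hf2⟩ ⟨hg1, hg2⟩
    refine ⟨fun α h => ?_, fun hl α s => ?_⟩
    · by_contra hv
      have h1 : f α = 0 := by by_contra h1; exact hv (hf1 α h1)
      have h2 : g α = 0 := by by_contra h2; exact hv (hg1 α h2)
      exact h (by rw [Pi.add_apply, h1, h2, add_zero])
    · simp only [Pi.add_apply, Finset.sum_add_distrib, hf2 hl α s, hg2 hl α s, add_zero]
  smul_mem' := by
    rintro c f ⟨hf1, hf2⟩
    refine ⟨fun α h => hf1 α ?_, fun hl α s => ?_⟩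
    · intro h1; exact h (by rw [Pi.smul_apply, h1, smul_zero])
    · simp only [Pi.smul_apply, smul_eq_mul, ← Finset.mul_sum, hf2 hl α s, mul_zero]

/-- the two label relations -/
def Lab2 (χ : Cf n m × Fin n → ℂ) : Prop :=
  (∀ (α : Cf n m) (s : Option (Fin m)) (a : Fin n), α a = some none →
    ∑ b ∈ univ.filter (fun b => α b = none), χ (update α b (some s), a) = 0) ∧
  ∀ α : Cf n m, ∑ b ∈ univ.filter (fun b => α b = none), χ (update α b (some none), b) = 0

/-- the other space, `k` real rows -/
def WX (n m d k : ℕ) (l : Bool) : Submodule ℂ (Cf n m × Fin n → ℂ) where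
  carrier := {χ | (∀ p, χ p ≠ 0 → Valid p.1 ∧ p.1 p.2 = some none ∧ dd p.1 = d ∧ rr p.1 = k) ∧
    (l = true → Lab2 χ)}
  zero_mem' := ⟨fun α h => absurd rfl h, fun _ => ⟨fun α s a _ => by simp, fun α => by simp⟩⟩
  add_mem' := by
    rintro f g ⟨hf1, hf2⟩ ⟨hg1, hg2⟩
    refine ⟨fun α h => ?_, fun hl => ⟨fun α s a ha => ?_, fun α => ?_⟩⟩
    · by_contra hv
      have h1 : f α = 0 := by by_contra h1; exact hv (hf1 α h1)
      have h2 : g α = 0 := by by_contra h2; exact hv (hg1 α h2)
      exact h (by rw [Pi.add_apply, h1, h2, add_zero])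
    · simp only [Pi.add_apply, Finset.sum_add_distrib, (hf2 hl).1 α s a ha, (hg2 hl).1 α s a ha,
        add_zero]
    · simp only [Pi.add_apply, Finset.sum_add_distrib, (hf2 hl).2 α, (hg2 hl).2 α, add_zero]
  smul_mem' := by
    rintro c f ⟨hf1, hf2⟩
    refine ⟨fun α h => hf1 α ?_, fun hl => ⟨fun α s a ha => ?_, fun α => ?_⟩⟩
    · intro h1; exact h (by rw [Pi.smul_apply, h1, smul_zero])
    · simp only [Pi.smul_apply, smul_eq_mul, ← Finset.mul_sum, (hf2 hl).1 α s a ha, mul_zero]
    · simp only [Pi.smul_apply, smul_eq_mul, ← Finset.mul_sum, (hf2 hl).2 α, mul_zero]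

theorem cols_iff {α : Cf n m} {x : Fin m} : x ∈ cols α ↔ ∃ a, α a = some (some x) := by
  simp [cols]

/-- validity after adding a rook in an empty row -/
theorem valid_add {α : Cf n m} {b : Fin n} {x : Fin m} (hb : α b = none) :
    Valid (update α b (some (some x))) ↔ Valid α ∧ x ∉ cols α := by
  constructor
  · intro h
    constructor
    · intro a c j ha hc
      have ha' : a ≠ b := by
        rintro rfl
        rw [hb] at ha
        simp at ha
      have hc' : c ≠ b := by
        rintro rfl
        rw [hb] at hc
        simp at hc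
      apply h a c j
      · rw [update_of_ne ha', ha]
      · rw [update_of_ne hc', hc]
    · intro hx
      obtain ⟨a, ha⟩ := cols_iff.1 hx
      have ha' : a ≠ b := by
        rintro rfl
        rw [hb] at ha
        simp at ha
      apply ha'
      apply h a b x
      · rw [update_of_ne ha', ha]
      · simp
  · rintro ⟨h, hx⟩ a c j ha hc
    by_cases ha' : a = b
    · by_cases hc' : c = b
      · rw [ha', hc']
      · exfalso
        subst ha'
        rw [update_self] at ha
        rw [update_of_ne hc'] at hc
        simp only [Option.some.injEq] at ha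
        subst ha
        exact hx (cols_iff.2 ⟨c, hc⟩)
    · by_cases hc' : c = b
      · exfalso
        subst hc'
        rw [update_self] at hc
        rw [update_of_ne ha'] at ha
        simp only [Option.some.injEq] at hc
        subst hc
        exact hx (cols_iff.2 ⟨a, ha⟩)
      · rw [update_of_ne ha'] at ha
        rw [update_of_ne hc'] at hc
        exact h a c j ha hc

/-- validity after adding a mark in an empty row -/
theorem valid_add' {α : Cf n m} {b : Fin n} (hb : α b = none) :
    Valid (update α b (some none)) ↔ Valid α := by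
  constructor
  · intro h a c j ha hc
    have ha' : a ≠ b := by
      rintro rfl
      rw [hb] at ha
      simp at ha
    have hc' : c ≠ b := by
      rintro rfl
      rw [hb] at hc
      simp at hc
    apply h a c j
    · rw [update_of_ne ha', ha]
    · rw [update_of_ne hc', hc]
  · intro h a c j ha hc
    have ha' : a ≠ b := by
      rintro rfl
      simp at ha
    have hc' : c ≠ b := by
      rintro rfl
      simp at hc
    rw [update_of_ne ha'] at ha
    rw [update_of_ne hc'] at hc
    exact h a c j ha hc

theorem UA_val {d k : ℕ} {l : Bool} {f : Cf n m → ℂ} (hf : f ∈ WW n m d k l)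
    (β : Cf n m) (a : Fin n) (h : β a = some none) :
    UA n m f (β, a) = ∑ x : Fin m, f (update β a (some (some x))) := by
  rw [UA_apply, if_pos h]
  apply Finset.sum_congr rfl
  intro x _
  by_cases hv : Valid (update β a (some (some x)))
  · rw [if_pos hv]
  · rw [if_neg hv]
    by_contra h1
    exact hv (hf.1 _ (fun h2 => h1 h2.symm)).1

theorem UA_mem {d k : ℕ} {l : Bool} {f : Cf n m → ℂ} (hf : f ∈ WW n m d (k + 1) l) :
    UA n m f ∈ WX n m d k l := by
  constructor
  · rintro ⟨β, a⟩ h
    by_cases hb : β a = some none
    · rw [UA_val hf β a hb] at h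
      obtain ⟨x, -, hx⟩ := Finset.exists_ne_zero_of_sum_ne_zero h
      obtain ⟨h1, h2, h3⟩ := hf.1 _ hx
      have hbb : update β a (some none) = β := by rw [← hb, update_eq_self]
      refine ⟨?_, hb, ?_, ?_⟩
      · have := valid_mark h1
        rw [hbb] at this
        exact this
      · rw [dd_eq, supp_upd] at h2
        show dd β = d
        rw [dd_eq]
        rw [Finset.insert_eq_of_mem] at h2
        · exact h2
        · rw [mem_supp, hb]
          simp
      · rw [rr, reals_upd, Finset.card_insert_of_notMem] at h3
        · show rr β = k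
          rw [rr]
          omega
        · rw [mem_reals, hb]
          simp
    · exfalso
      apply h
      rw [UA_apply, if_neg hb]
  · intro hl
    have hL := hf.2 hl
    constructor
    · intro α s a ha
      have h1 : ∀ b ∈ univ.filter (fun b => α b = none), UA n m f (update α b (some s), a)
          = ∑ x : Fin m, f (update (update α a (some (some x))) b (some s)) := by
        intro b hb
        rw [Finset.mem_filter] at hb
        have hab : a ≠ b := by
          rintro rfl
          rw [ha] at hb
          simp at hb
        rw [UA_val hf _ a (by rw [update_of_ne hab, ha])]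
        apply Finset.sum_congr rfl
        intro x _
        rw [update_comm hab]
      rw [Finset.sum_congr rfl h1, Finset.sum_comm]
      apply Finset.sum_eq_zero
      intro x _
      have h2 := hL (update α a (some (some x))) s
      rw [← h2]
      apply Finset.sum_congr _ (fun _ _ => rfl)
      ext b
      simp only [Finset.mem_filter, Finset.mem_univ, true_and]
      by_cases hab : b = a
      · subst hab
        rw [ha]
        simp
      · rw [update_of_ne hab]
    · intro α
      have h1 : ∀ b ∈ univ.filter (fun b => α b = none), UA n m f (update α b (some none), b)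
          = ∑ x : Fin m, f (update α b (some (some x))) := by
        intro b hb
        rw [UA_val hf _ b (by simp)]
        apply Finset.sum_congr rfl
        intro x _
        rw [update_idem]
      rw [Finset.sum_congr rfl h1, Finset.sum_comm]
      apply Finset.sum_eq_zero
      intro x _
      exact hL α (some x)

theorem UU_mem {d k : ℕ} {l : Bool} {χ : Cf n m × Fin n → ℂ} (hχ : χ ∈ WX n m d k l) :
    UU n m χ ∈ WW n m d (k + 1) l := by
  constructor
  · intro α h
    by_cases hv : Valid α
    · rw [UU_apply, if_pos hv] at h
      obtain ⟨a, ha, hx⟩ := Finset.exists_ne_zero_of_sum_ne_zero h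
      obtain ⟨h1, h2, h3, h4⟩ := hχ.1 _ hx
      refine ⟨hv, ?_, ?_⟩
      · simp only at h3
        rw [dd_eq, supp_upd, Finset.insert_eq_of_mem] at h3
        · exact h3
        · obtain ⟨j, hj⟩ := mem_reals.1 ha
          rw [mem_supp, hj]
          simp
      · simp only at h4
        rw [rr, reals_upd', Finset.card_erase_of_mem ha] at h4
        have : 0 < (reals α).card := Finset.card_pos.2 ⟨a, ha⟩
        rw [rr]
        omega
    · exfalso
      apply h
      rw [UU_apply, if_neg hv]
  · intro hl
    obtain ⟨hL1, hL2⟩ := hχ.2 hl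
    intro α s
    rcases s with _ | j
    · by_cases hv : Valid α
      swap
      · apply Finset.sum_eq_zero
        intro b hb
        rw [UU_apply, if_neg]
        rw [valid_add' (Finset.mem_filter.1 hb).2]
        exact hv
      have h1 : ∀ b ∈ univ.filter (fun b => α b = none), UU n m χ (update α b (some none))
          = ∑ a ∈ reals α, χ (update (update α a (some none)) b (some none), a) := by
        intro b hb
        have hb' := (Finset.mem_filter.1 hb).2
        rw [UU_apply, if_pos ((valid_add' hb').2 hv), reals_upd', Finset.erase_eq_of_notMem]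
        · apply Finset.sum_congr rfl
          intro a ha
          have hab : a ≠ b := by
            rintro rfl
            obtain ⟨j, hj⟩ := mem_reals.1 ha
            rw [hb'] at hj
            simp at hj
          rw [update_comm hab]
        · rw [mem_reals, hb']
          simp
      rw [Finset.sum_congr rfl h1, Finset.sum_comm]
      apply Finset.sum_eq_zero
      intro a ha
      rw [← hL1 (update α a (some none)) none a (by simp)]
      apply Finset.sum_congr _ (fun _ _ => rfl)
      ext b
      simp only [Finset.mem_filter, Finset.mem_univ, true_and]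
      by_cases hab : b = a
      · subst hab
        obtain ⟨j, hj⟩ := mem_reals.1 ha
        rw [hj]
        simp
      · rw [update_of_ne hab]
    · by_cases hv : Valid α ∧ j ∉ cols α
      swap
      · apply Finset.sum_eq_zero
        intro b hb
        rw [UU_apply, if_neg]
        rw [valid_add (Finset.mem_filter.1 hb).2]
        exact hv
      have h1 : ∀ b ∈ univ.filter (fun b => α b = none), UU n m χ (update α b (some (some j)))
          = χ (update α b (some none), b) +
            ∑ a ∈ reals α, χ (update (update α a (some none)) b (some (some j)), a) := by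
        intro b hb
        have hb' := (Finset.mem_filter.1 hb).2
        have hnm : b ∉ reals α := by
          rw [mem_reals, hb']
          simp
        rw [UU_apply, if_pos ((valid_add hb').2 hv), reals_upd, Finset.sum_insert hnm,
          update_idem]
        congr 1
        apply Finset.sum_congr rfl
        intro a ha
        have hab : a ≠ b := by
          rintro rfl
          exact hnm ha
        rw [update_comm hab]
      rw [Finset.sum_congr rfl h1, Finset.sum_add_distrib, hL2 α, zero_add, Finset.sum_comm]
      apply Finset.sum_eq_zero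
      intro a ha
      rw [← hL1 (update α a (some none)) (some j) a (by simp)]
      apply Finset.sum_congr _ (fun _ _ => rfl)
      ext b
      simp only [Finset.mem_filter, Finset.mem_univ, true_and]
      by_cases hab : b = a
      · subst hab
        obtain ⟨j, hj⟩ := mem_reals.1 ha
        rw [hj]
        simp
      · rw [update_of_ne hab]

/-! ### the induction -/

/-- sum over the marked rows -/
def bar (χ : Cf n m × Fin n → ℂ) : Cf n m → ℂ := fun β => ∑ a ∈ marks β, χ (β, a)

theorem bar_mem {d k : ℕ} {l : Bool} {χ : Cf n m × Fin n → ℂ} (hχ : χ ∈ WX n m d k l) :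
    bar χ ∈ WW n m d k l := by
  constructor
  · intro β h
    obtain ⟨a, ha, hx⟩ := Finset.exists_ne_zero_of_sum_ne_zero h
    obtain ⟨h1, h2, h3, h4⟩ := hχ.1 _ hx
    exact ⟨h1, h3, h4⟩
  · intro hl
    obtain ⟨hL1, hL2⟩ := hχ.2 hl
    intro α s
    have key : ∑ a ∈ marks α, ∑ b ∈ univ.filter (fun b => α b = none), χ (update α b (some s), a)
        = 0 := by
      apply Finset.sum_eq_zero
      intro a ha
      exact hL1 α s a (mem_marks.1 ha)
    rcases s with _ | j
    · have h1 : ∀ b ∈ univ.filter (fun b => α b = none), bar χ (update α b (some none))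
          = χ (update α b (some none), b) + ∑ a ∈ marks α, χ (update α b (some none), a) := by
        intro b hb
        have hb' := (Finset.mem_filter.1 hb).2
        have hnm : b ∉ marks α := by
          rw [mem_marks, hb']
          simp
        rw [bar, marks_upd', Finset.sum_insert hnm]
      rw [Finset.sum_congr rfl h1, Finset.sum_add_distrib, hL2 α, zero_add, Finset.sum_comm, key]
    · have h1 : ∀ b ∈ univ.filter (fun b => α b = none), bar χ (update α b (some (some j)))
          = ∑ a ∈ marks α, χ (update α b (some (some j)), a) := by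
        intro b hb
        have hb' := (Finset.mem_filter.1 hb).2
        rw [bar, marks_upd, Finset.erase_eq_of_notMem]
        rw [mem_marks, hb']
        simp
      rw [Finset.sum_congr rfl h1, Finset.sum_comm, key]

theorem valid_mk {A : Cf n m} (T : Finset (Fin n)) (h : Valid A) : Valid (mk A T) := by
  intro a b j ha hb
  unfold mk at ha hb
  split_ifs at ha hb with h1 h2
  · simp at ha
  · simp at ha
  · simp at hb
  · exact h a b j ha hb

theorem reals_mk {A : Cf n m} {T : Finset (Fin n)} (h : tt A = 0) :
    reals (mk A T) = supp A \ T := by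
  have hm : ∀ a, A a ≠ some none := by
    intro a ha
    rw [tt_eq, Finset.card_eq_zero] at h
    have : a ∈ marks A := mem_marks.2 ha
    rw [h] at this
    simp at this
  ext a
  rw [mem_reals, Finset.mem_sdiff, mem_supp]
  unfold mk
  by_cases ha : a ∈ T
  · simp [ha]
  · rw [if_neg ha]
    rcases hA : A a with _ | _ | j
    · simp
    · exact absurd hA (hm a)
    · simp [ha]

theorem marks_mk {A : Cf n m} {T : Finset (Fin n)} (h : tt A = 0) : marks (mk A T) = T := by
  have hm : ∀ a, A a ≠ some none := by
    intro a ha
    rw [tt_eq, Finset.card_eq_zero] at h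
    have : a ∈ marks A := mem_marks.2 ha
    rw [h] at this
    simp at this
  ext a
  rw [mem_marks]
  unfold mk
  by_cases ha : a ∈ T
  · simp [ha]
  · rw [if_neg ha]
    simp [ha, hm a]

theorem mk_upd {A : Cf n m} {T : Finset (Fin n)} (a : Fin n) :
    update (mk A T) a (some none) = mk A (insert a T) := by
  funext b
  by_cases h : b = a
  · subst h
    simp [mk]
  · rw [update_of_ne h]
    simp [mk, h]

theorem Lop_apply (g : Fn n m) (A : Cf n m) : Lop n m g A =
    if Valid A ∧ tt A = 0 then ∑ T ∈ (supp A).powerset, g (mk A T) else 0 := rfl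

theorem sum_pow {V : Type*} [DecidableEq V] (S : Finset V) (F : Finset V → V → ℂ) :
    ∑ T ∈ S.powerset, ∑ a ∈ S \ T, F (insert a T) a = ∑ T ∈ S.powerset, ∑ a ∈ T, F T a := by
  rw [Finset.sum_sigma', Finset.sum_sigma']
  refine Finset.sum_bij'
    (fun (p : Σ _ : Finset V, V) _ => (⟨insert p.2 p.1, p.2⟩ : Σ _ : Finset V, V))
    (fun (p : Σ _ : Finset V, V) _ => (⟨p.1.erase p.2, p.2⟩ : Σ _ : Finset V, V)) ?_ ?_ ?_ ?_ ?_
  · rintro ⟨T, a⟩ h
    simp only [Finset.mem_sigma, Finset.mem_powerset, Finset.mem_sdiff] at h ⊢
    refine ⟨?_, Finset.mem_insert_self _ _⟩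
    exact Finset.insert_subset h.2.1 h.1
  · rintro ⟨T, a⟩ h
    simp only [Finset.mem_sigma, Finset.mem_powerset, Finset.mem_sdiff] at h ⊢
    exact ⟨(Finset.erase_subset _ _).trans h.1, h.1 h.2, Finset.notMem_erase _ _⟩
  · rintro ⟨T, a⟩ h
    simp only [Finset.mem_sigma, Finset.mem_powerset, Finset.mem_sdiff] at h
    simp only [Finset.erase_insert h.2.2]
  · rintro ⟨T, a⟩ h
    simp only [Finset.mem_sigma, Finset.mem_powerset] at h
    simp only [Finset.insert_erase h.2]
  · rintro ⟨T, a⟩ h
    rfl

theorem Lop_UU (χ : Cf n m × Fin n → ℂ) : Lop n m (UU n m χ) = Lop n m (bar χ) := by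
  funext A
  rw [Lop_apply, Lop_apply]
  by_cases h : Valid A ∧ tt A = 0
  swap
  · rw [if_neg h, if_neg h]
  rw [if_pos h, if_pos h]
  have h1 : ∀ T ∈ (supp A).powerset, UU n m χ (mk A T)
      = ∑ a ∈ supp A \ T, χ (mk A (insert a T), a) := by
    intro T _
    rw [UU_apply, if_pos (valid_mk T h.1), reals_mk h.2]
    apply Finset.sum_congr rfl
    intro a _
    rw [mk_upd]
  have h2 : ∀ T ∈ (supp A).powerset, bar χ (mk A T) = ∑ a ∈ T, χ (mk A T, a) := by
    intro T _
    rw [bar, marks_mk h.2]
  rw [Finset.sum_congr rfl h1, Finset.sum_congr rfl h2]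
  exact sum_pow (supp A) fun T a => χ (mk A T, a)

/-- restriction to `k` real rows -/
theorem restr {d : ℕ} {l : Bool} {ψ : Fn n m} (k : ℕ)
    (h1 : ∀ α, ψ α ≠ 0 → Valid α ∧ dd α = d) (h2 : l = true → LabH ψ) :
    (fun α => if rr α = k then ψ α else 0) ∈ WW n m d k l := by
  constructor
  · intro α h
    by_cases hk : rr α = k
    · simp only [hk, if_true] at h
      exact ⟨(h1 α h).1, (h1 α h).2, hk⟩
    · simp [hk] at h
  · intro hl α s
    have hL := h2 hl α s
    have h3 : ∀ b ∈ univ.filter (fun b => α b = none), rr (update α b (some s))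
        = rr α + (if s = none then 0 else 1) := by
      intro b hb
      have hb' := (Finset.mem_filter.1 hb).2
      have hnm : b ∉ reals α := by
        rw [mem_reals, hb']
        simp
      rcases s with _ | j
      · rw [rr, reals_upd', Finset.erase_eq_of_notMem hnm]
        simp [rr]
      · rw [rr, reals_upd, Finset.card_insert_of_notMem hnm]
        simp [rr]
    have h4 : ∀ b ∈ univ.filter (fun b => α b = none),
        (if rr (update α b (some s)) = k then ψ (update α b (some s)) else 0)
        = if rr α + (if s = none then 0 else 1) = k then ψ (update α b (some s)) else 0 := by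
      intro b hb
      rw [h3 b hb]
    rw [Finset.sum_congr rfl h4]
    by_cases h5 : rr α + (if s = none then 0 else 1) = k
    · simp only [h5, if_true]
      exact hL
    · simp only [h5, if_false, Finset.sum_const_zero]

theorem claim (hO : Stmt_ORT) (d : ℕ) (l : Bool) : ∀ (k : ℕ) (ψ : Fn n m),
    (∀ α, ψ α ≠ 0 → Valid α ∧ dd α = d ∧ rr α ≤ k) → (l = true → LabH ψ) →
    ∃ g ∈ H1 n m l ⊓ S1 n m (fun a _ => a = d), Lop n m g = Lop n m ψ := by
  intro k
  induction k with
  | zero =>
    intro ψ h1 h2
    refine ⟨ψ, ⟨⟨fun α h => (h1 α h).1, ?_, h2⟩, fun α h => (h1 α h).2.1⟩, rfl⟩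
    intro α a
    apply Finset.sum_eq_zero
    intro x _
    by_contra h
    have h3 := (h1 _ h).2.2
    rw [rr, reals_upd] at h3
    have : 0 < (insert a (reals α)).card := Finset.card_pos.2 ⟨a, Finset.mem_insert_self _ _⟩
    omega
  | succ k ih =>
    intro ψ h1 h2
    have hr := restr (k + 1) (fun α h => ⟨(h1 α h).1, (h1 α h).2.1⟩) h2
    obtain ⟨f0, hf0, χ, hχ, hdec, hker⟩ := hO (Cf n m) (Cf n m × Fin n) (UU n m) (UA n m)
      (fun f χ => adj f χ) (WW n m d (k + 1) l) (WX n m d k l) (fun χ h => UU_mem h)
      (fun f h => UA_mem h) _ hr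
    have hpos : PosH f0 := by
      intro α a
      have h3 := congrFun hker (update α a (some none), a)
      rw [UA_val hf0 _ a (by simp)] at h3
      simpa [update_idem] using h3
    set ψ' : Fn n m := (fun α => if rr α = k + 1 then 0 else ψ α) + bar χ with hψ'
    have hb := bar_mem hχ
    obtain ⟨g, hg, hLg⟩ := ih ψ' (by
      intro α h
      rw [hψ'] at h
      simp only [Pi.add_apply] at h
      by_cases h3 : bar χ α = 0
      · rw [h3, add_zero] at h
        by_cases h4 : rr α = k + 1
        · simp [h4] at h
        · rw [if_neg h4] at h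
          obtain ⟨h5, h6, h7⟩ := h1 α h
          exact ⟨h5, h6, by omega⟩
      · obtain ⟨h5, h6, h7⟩ := hb.1 α h3
        exact ⟨h5, h6, h7.le⟩) (by
      intro hl α s
      have h3 : ∀ α : Cf n m, ψ' α = ψ α - (if rr α = k + 1 then ψ α else 0) + bar χ α := by
        intro α
        rw [hψ']
        simp only [Pi.add_apply]
        split_ifs <;> ring
      simp only [h3, Finset.sum_add_distrib, Finset.sum_sub_distrib]
      rw [h2 hl α s, hb.2 hl α s, hr.2 hl α s]
      ring)
    refine ⟨g + f0, Submodule.add_mem _ hg ?_, ?_⟩
    · exact ⟨⟨fun α h => (hf0.1 α h).1, hpos, hf0.2⟩, fun α h => (hf0.1 α h).2.1⟩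
    · rw [map_add, hLg, hψ', map_add, ← Lop_UU]
      have h4 : ψ = (fun α => if rr α = k + 1 then 0 else ψ α) + (f0 + UU n m χ) := by
        rw [← hdec]
        funext α
        simp only [Pi.add_apply]
        split_ifs <;> simp
      conv_rhs => rw [h4]
      rw [map_add, map_add]
      abel

theorem stmt_SPAN (hO : Stmt_ORT) : Stmt_SPAN := by
  intro n m d l φ h1 h2
  obtain ⟨g, hg, hL⟩ := claim hO d l n φ (fun α h => ⟨(h1 α h).1, (h1 α h).2.2, by
    have := Finset.card_le_univ (reals α)
    simpa [rr] using this⟩) h2
  refine ⟨g, hg, ?_⟩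
  rw [hL]
  funext A
  rw [Lop_apply]
  by_cases h : Valid A ∧ tt A = 0
  · rw [if_pos h, Finset.sum_eq_single ∅]
    · have h0 : mk A ∅ = A := by
        funext a
        simp [mk]
      rw [h0]
    · intro T hT hne
      by_contra h3
      have h4 := (h1 _ h3).2.1
      rw [tt_eq, marks_mk h.2, Finset.card_eq_zero] at h4
      exact hne h4
    · simp
  · rw [if_neg h]
    by_contra h3
    have h4 := h1 A (fun h5 => h3 h5.symm)
    exact h ⟨h4.1, h4.2.1⟩

end Pool.RookLC.helper32
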